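import Pool.Agent.H90.BU.GeoF

/-!
# The standard conjecture of Hodge type and blow-ups

Let `T` be the blow-up of `X` along a smooth centre `i : Z ⟶ X` of codimension `c + 1`, with the
exceptional divisor `j : F ⟶ T`, and `D` a divisor on `X` such that hard Lefschetz modulo numerical
equivalence holds for `X` and `D` and for `Z` and `i^* D`. Then it holds for `T` and
`π^* D - t j_*[F]`, where `t > 0` is small, and the numbers of negative squares of the forms of the
standard conjecture of Hodge type satisfy a blow-up formula. Hence the conjecture holds for `T` in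
the codimensions `p ≤ J` if and only if it holds for `X` in the codimensions `p ≤ J` and for `Z` in
the codimensions `p < J`. If `X` is a projective space, then the conjecture for `T` in the
codimensions `p ≤ J + 1` is equivalent to the conjecture for `Z` in the codimensions `p ≤ J`.

The proof: let `V` be the ring of cycles on `T` modulo numerical equivalence. In suitable coordinates
of `V`, depending on `t`, the intersection form and the operator of multiplication with
`π^* D - t j_*[F]` depend polynomially on `t`, up to a factor, and for `t = 0` one obtains the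
orthogonal sum of `X` and of `Z × P ^ (c - 1)` with the form of `Z × P ^ (c - 1)` multiplied by `-1`
and shifted by one. The latter satisfies hard Lefschetz, and the numbers of squares of its
Hodge-Riemann forms are computed by means of the decomposition of the representations of `sl 2`. All
this persists for small `t > 0`.
-/

open CategoryTheory AlgebraicGeometry

universe u v

namespace Pool.Agent.Results.MP_ffcd14_ag.BlowupIndices

open Pool.Agent.H914 Pool.Agent.H914.VarClass Pool.Agent.H914.VarClass.Obj
  Pool.Agent.H914.WeilCohomology Pool.Agent.H90.BU.Geo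

theorem result {k : Type u} [Field k] {𝒱 : VarClass k} {ops : CycleOps 𝒱}
    (W : WeilCohomology.{u, v} ops) {X Z T F : 𝒱.Obj} (i : Z ⟶ X) (π : T ⟶ X) (j : F ⟶ T)
    (g : F ⟶ Z) (c : ℕ) (H : IsBlowup W i π j g c) (D : X.Cycles) (hD : X.IsCyc 1 D)
    (hX : NumLefschetz ops X D) (hZ : NumLefschetz ops Z (ops.pull i D)) :
    ∃ δ : ℚ, 0 < δ ∧ ∀ t : ℚ, 0 < t → t < δ →
      NumLefschetz ops T (blowDiv ops π j D t) ∧
      (∀ p, totalNegSquares ops T (blowDiv ops π j D t) p = totalNegSquares ops X D p +
        ∑ r ∈ (Finset.range c).filter (· < p),
          totalNegSquares ops Z (ops.pull i D) (p - 1 - r)) ∧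
      (∀ J, (∀ p ≤ J, HodgeTypeIn ops T (blowDiv ops π j D t) p) ↔
        (∀ p ≤ J, HodgeTypeIn ops X D p) ∧ ∀ p < J, HodgeTypeIn ops Z (ops.pull i D) p) ∧
      (IsSpaceLike ops X D → ∀ J, (∀ p ≤ J + 1, HodgeTypeIn ops T (blowDiv ops π j D t) p) ↔
        ∀ p ≤ J, HodgeTypeIn ops Z (ops.pull i D) p) :=
  (main W).2.1 i π j g c H D hD hX hZ

end Pool.Agent.Results.MP_ffcd14_ag.BlowupIndices
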