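import Pool.Agent.H88.LV.ThmH

/-!
# The conjecture of Hodge type for products with varieties of odd dimension: a bound by the dimension

`OddFamily` and `mixed` are in `Pool/Agent/H88/FL/PDefs2.lean`, the levels in
`Pool/Agent/H88/LV/Defs.lean`.
-/

open Pool.Agent.H914 Pool.Agent.H914.VarClass Pool.Agent.H914.VarClass.Obj
  Pool.Agent.H914.WeilCohomology Pool.Agent.H281R3.HT Pool.Agent.TH125.Gal Pool.Agent.H88.FL
  Pool.Agent.H88.LV

universe u v w

namespace Pool.Agent.Results.MP_ffcd14_ag.LevelBound

/-- **The conjectures A, of Hodge type and D for all products of `Z` with members of a family of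
varieties of odd dimension with big monodromy follow from the conjectures for the products whose
number of factors is bounded by the levels in the cohomology of `Z`, in particular by `dim Z` if the
levels of the family are at least one.** -/
theorem result {k : Type u} [Field k] {𝒱 : VarClass k} {ops : CycleOps 𝒱}
    {W : WeilCohomology.{u, v} ops} {N : Levels W} {Γ : Type w} [Group Γ] {χ : Γ →* W.Kˣ}
    {G : Set (GVar W Γ)} {ι : Type} {X : ι → GVar W Γ} {D : ∀ i, (X i).X.Cycles} {δ : ι → ℚ}
    (h : LevelFamily N χ G X D δ) (hT : ∀ i, HodgeType W (X i).X (D i)) {Z : GVar W Γ}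
    (hZ : Z ∈ G) {E : Z.X.Cycles} (hE : Z.X.IsCyc 1 E) (hH : HardLefschetz W Z.X E) :
    (∀ (n : ℕ) (c : Fin n → ι), StdAH W (mixed X D Z E c) ∧ HomEqNum W (mixed X D Z E c).X) ↔
    StdAH W ⟨Z.X, E⟩ ∧ ∀ (n : ℕ) (c : Fin n → ι), 0 < n →
      LevelBelow N Z.X (Z.X.dim + 1) n (total δ c) → StdAH W (mixed X D Z E c) :=
  hodge_iff N h.family h.pos h.levels hT hZ hE hH

end Pool.Agent.Results.MP_ffcd14_ag.LevelBound
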