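import Pool.Agent.H90.HR.Main

/-!
# The standard conjecture of Hodge type on diagrams of varieties which lift to characteristic zero

Consider a finite diagram of varieties with divisors, morphisms and cycles over a field with `q`
elements which lifts to characteristic zero. The Frobenius endomorphisms and a finite group of
automorphisms of the diagram are not assumed to lift. If the standard conjecture of Hodge type and
the Tate conjecture are known in codimensions at most `m i` on `X i`, then the standard conjectures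
of Hodge type and `D` hold for all classes generated by the algebraic classes of these
codimensions, by the liftable cycles, and by the graphs of the liftable morphisms, of the
automorphisms and of the semisimple Frobenius endomorphisms.
-/

open CategoryTheory AlgebraicGeometry

universe u v

namespace Pool.Agent.Results.MP_ffcd14_ag.LiftableDiagrams

open Pool.Agent.H914 Pool.Agent.H914.VarClass Pool.Agent.H914.VarClass.Obj
  Pool.Agent.H914.WeilCohomology Pool.Agent.W552 Pool.Agent.Y103 Pool.Agent.H90.HR

theorem result {k : Type u} [Field k] {𝒱 : VarClass k} {ops : CycleOps 𝒱}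
    (W : WeilCohomology.{u, v} ops) (ι : W.K ≃+* ℂ) (𝓓 : Diagram 𝒱) [Finite 𝓓.J]
    (hgr : 𝓓.IsGraded) (hL : ∀ i, LefschetzConj W (𝓓.X i) (𝓓.D i))
    (hlift : Lifts W ι 𝓓) {q : ℕ} {F : ∀ i, 𝓓.Hom i i} (hF : IsFrobenius W 𝓓 q F)
    {G : Type} [Group G] [Finite G] {g : G → ∀ i, 𝓓.Hom i i} (hg : IsSymmetry W 𝓓 F g)
    (m : 𝓓.J → ℕ)
    (hH : ∀ i, HodgeTypeFor W (𝓓.X i) (𝓓.D i)
      (fun x => ∃ j, 1 ≤ j ∧ j ≤ m i ∧ x ∈ algClasses W (𝓓.X i) j))
    (hT : ∀ i j, 1 ≤ j → j ≤ m i → 2 * j ≤ (𝓓.X i).dim → TateConj W (𝓓.X i) (F i) q j)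
    (i : 𝓓.J) :
    StdFor W (𝓓.X i) (𝓓.D i) (Generated W 𝓓 F g m i) :=
  main ι 𝓓 hgr hL hlift hF hg m hH hT i

end Pool.Agent.Results.MP_ffcd14_ag.LiftableDiagrams
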