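import Pool.Agent.H88.HT.ThmH

/-!
# The conjecture of Hodge type for products of a variety with varieties of odd dimension
-/

open Pool.Agent.H914 Pool.Agent.H914.VarClass Pool.Agent.H914.VarClass.Obj
  Pool.Agent.H914.WeilCohomology Pool.Agent.H281R3.HT Pool.Agent.TH125.Gal Pool.Agent.H88.FL

universe u v w

namespace Pool.Agent.Results.MP_ffcd14_ag.OddFamilyFiniteLevel

/-- **The conjectures A and of Hodge type for all products of `Z` with members of a family of
varieties of odd dimension with big monodromy follow from the conjectures for finitely many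
levels.** -/
theorem result {k : Type u} [Field k] {𝒱 : VarClass k} {ops : CycleOps 𝒱}
    {W : WeilCohomology.{u, v} ops} {Γ : Type w} [Group Γ] {χ : Γ →* W.Kˣ} {G : Set (GVar W Γ)}
    {ι : Type} [DecidableEq ι] {X : ι → GVar W Γ} {D : ∀ i, (X i).X.Cycles}
    (h : OddFamily χ G X D) (hX : ∀ i, HodgeType W (X i).X (D i)) {Z : GVar W Γ} (hZ : Z ∈ G)
    {E : Z.X.Cycles} (hE : Z.X.IsCyc 1 E) (hH : HardLefschetz W Z.X E) :
    (∀ (n : ℕ) (c : Fin n → ι), LefschetzA W (mixed X D Z E c).X (mixed X D Z E c).D ∧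
      HodgeType W (mixed X D Z E c).X (mixed X D Z E c).D ∧
        HomEqNum W (mixed X D Z E c).X) ↔
    (LefschetzA W Z.X E ∧ HodgeType W Z.X E) ∧ ∀ (n : ℕ) (c : Fin n → ι), 0 < n →
      (∃ e ≤ Z.X.dim, Even (n + e) ∧ n < primRank W Z.X E e ∧ level c ≤ primRank W Z.X E e) →
        LefschetzA W (mixed X D Z E c).X (mixed X D Z E c).D ∧
          HodgeType W (mixed X D Z E c).X (mixed X D Z E c).D :=
  Pool.Agent.H88.HT.OddFamily.hodge_iff h hX hZ hE hH

end Pool.Agent.Results.MP_ffcd14_ag.OddFamilyFiniteLevel
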